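import Pool.Agent.N408.IB.Stm

set_option autoImplicit false

/-! IB/NSY: the body is not centrally symmetric. -/

namespace N654.IB.NSY

open Real Set MeasureTheory
open IB408

/-- the support function of a body symmetric about `z/2` -/
theorem supp_eq (h : ℝ → ℝ)
    (hatt : ∀ u : E4, ‖u‖ = 1 → ∃ x ∈ Ks h, inner ℝ x u = h (arccos (inner ℝ u ax)))
    (z : E4) (hz : ∀ x, (x ∈ Ks h ↔ z - x ∈ Ks h)) (u : E4) (hu : ‖u‖ = 1) :
    h (arccos (inner ℝ u ax)) = inner ℝ z u + h (arccos (inner ℝ (-u) ax)) := by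
  have hun : ‖-u‖ = 1 := by rw [norm_neg]; exact hu
  obtain ⟨x, hx, hxu⟩ := hatt u hu
  obtain ⟨y, hy, hyu⟩ := hatt (-u) hun
  have h1 := ((hz x).1 hx) (-u) hun
  have h2 := ((hz y).1 hy) u hu
  rw [inner_sub_left, inner_neg_right, inner_neg_right] at h1
  rw [inner_sub_left] at h2
  rw [inner_neg_right] at hyu
  linarith

theorem inner_ax_ax : inner ℝ (ax : E4) ax = (1 : ℝ) := by
  simp [ax]

/-- the second coordinate vector -/
noncomputable def f1 : E4 := EuclideanSpace.single 1 1

theorem inner_f1_ax : inner ℝ (f1 : E4) ax = (0 : ℝ) := by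
  unfold ax f1
  rw [EuclideanSpace.inner_single_left]
  simp

theorem inner_ax_f1 : inner ℝ (ax : E4) f1 = (0 : ℝ) := by
  rw [real_inner_comm, inner_f1_ax]

theorem inner_f1_f1 : inner ℝ (f1 : E4) f1 = (1 : ℝ) := by
  simp [f1]

/-- the direction at angle `pi/4` -/
noncomputable def up (e : ℝ) : E4 := (√2 / 2) • (ax + e • f1)

theorem inner_up_ax (e : ℝ) : inner ℝ (up e) ax = √2 / 2 := by
  unfold up
  rw [inner_smul_left, inner_add_left, inner_smul_left, inner_ax_ax, inner_f1_ax]
  simp

theorem norm_up (e : ℝ) (he : e * e = 1) : ‖up e‖ = 1 := by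
  have h1 : inner ℝ (up e) (up e) = (1 : ℝ) := by
    unfold up
    rw [inner_smul_left, inner_smul_right, inner_add_left, inner_add_right, inner_add_right,
      inner_smul_left, inner_smul_left, inner_smul_right, inner_smul_right, inner_ax_ax,
      inner_f1_ax, inner_ax_f1, inner_f1_f1]
    have h2 : √2 * √2 = 2 := Real.mul_self_sqrt (by norm_num)
    simp only [conj_trivial]
    linear_combination (1 / 4 * (1 + e * e)) * h2 + 1 / 2 * he
  rw [real_inner_self_eq_norm_sq] at h1
  have h3 : 0 ≤ ‖up e‖ := norm_nonneg _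
  nlinarith

theorem arccos_up (e : ℝ) : arccos (inner ℝ (up e) ax) = π / 4 := by
  rw [inner_up_ax, ← Real.cos_pi_div_four]
  exact Real.arccos_cos (by positivity) (by linarith [Real.pi_pos])

theorem arccos_neg_up (e : ℝ) : arccos (inner ℝ (-up e) ax) = π - π / 4 := by
  rw [inner_neg_left, Real.arccos_neg, arccos_up]

theorem t : S_NSY := by
  intro h _ hatt h0 h4 ⟨z, hz⟩
  have hax : ‖(ax : E4)‖ = 1 := by
    have := inner_ax_ax
    rw [real_inner_self_eq_norm_sq] at this
    have h3 : 0 ≤ ‖(ax : E4)‖ := norm_nonneg _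
    nlinarith
  have h1 := supp_eq h hatt z hz ax hax
  rw [inner_neg_left, inner_ax_ax, Real.arccos_neg, Real.arccos_one, sub_zero] at h1
  have hup : ∀ e : ℝ, e * e = 1 → inner ℝ z (up e) = (0 : ℝ) := by
    intro e he
    have h2 := supp_eq h hatt z hz (up e) (norm_up e he)
    rw [arccos_up, arccos_neg_up, h4] at h2
    linarith
  have hp := hup 1 (by norm_num)
  have hm := hup (-1) (by norm_num)
  unfold up at hp hm
  rw [inner_smul_right, inner_add_right, inner_smul_right] at hp hm
  have hs : (0 : ℝ) < √2 := Real.sqrt_pos.2 (by norm_num)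
  have hza : inner ℝ z (ax : E4) = (0 : ℝ) := by
    have h5 : √2 * inner ℝ z (ax : E4) = (0 : ℝ) := by linear_combination hp + hm
    rcases mul_eq_zero.1 h5 with h6 | h6
    · exact absurd h6 hs.ne'
    · exact h6
  rw [hza] at h1
  linarith

end N654.IB.NSY
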